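import Mathlib

/-!
A three-level spider used to refute the bound on the distance packing domination number.
The root has `k` children (mids), each mid has `k` children (hubs), and each hub carries
`s` pendant paths with `m` vertices each.
-/

namespace Pool.Agent.P.MP_bde484_co

open SimpleGraph

section General

variable {V : Type}

/-- The graph joining every vertex to its parent. -/
def parGraph (par : V → V) : SimpleGraph V := SimpleGraph.fromRel (fun u v => par u = v)

theorem parGraph_adj (par : V → V) (u v : V) :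
    (parGraph par).Adj u v ↔ u ≠ v ∧ (par u = v ∨ par v = u) := by
  simp [parGraph, fromRel_adj]

theorem parGraph_isTree [Finite V] (par : V → V) (dep : V → ℕ) (r : V) (hr : par r = r)
    (h : ∀ v, v ≠ r → dep (par v) < dep v) : (parGraph par).IsTree := by
  have hne : ∀ v, v ≠ r → v ≠ par v := by
    intro v hv he
    have := h v hv
    rw [← he] at this
    exact lt_irrefl _ this
  have hreach : ∀ n v, dep v = n → (parGraph par).Reachable v r := by
    intro n
    induction n using Nat.strong_induction_on with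
    | _ n ih =>
      intro v hv
      by_cases hvr : v = r
      · rw [hvr]
      · have h1 : (parGraph par).Adj v (par v) := by
          rw [parGraph_adj]
          exact ⟨hne v hvr, Or.inl rfl⟩
        exact h1.reachable.trans (ih (dep (par v)) (hv ▸ h v hvr) _ rfl)
  have hconn : (parGraph par).Connected := by
    have : Nonempty V := ⟨r⟩
    refine ⟨fun u v => (hreach _ u rfl).trans (hreach _ v rfl).symm⟩
  rw [isTree_iff_connected_and_card]
  refine ⟨hconn, le_antisymm ?_ hconn.card_vert_le_card_edgeSet_add_one⟩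
  have hsurj : Function.Surjective
      (fun v : {v : V // v ≠ r} => (⟨s(v.1, par v.1), by
        rw [mem_edgeSet, parGraph_adj]
        exact ⟨hne v.1 v.2, Or.inl rfl⟩⟩ : (parGraph par).edgeSet)) := by
    rintro ⟨e, he⟩
    induction e using Sym2.ind with
    | _ u v =>
      rw [mem_edgeSet, parGraph_adj] at he
      obtain ⟨huv, h1 | h1⟩ := he
      · have hu : u ≠ r := by
          rintro rfl
          exact huv (hr.symm.trans h1)
        exact ⟨⟨u, hu⟩, by simp [h1]⟩
      · have hv : v ≠ r := by
          rintro rfl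
          exact huv (hr.symm.trans h1).symm
        exact ⟨⟨v, hv⟩, by simp [h1]⟩
  have h1 : Nat.card (parGraph par).edgeSet ≤ Nat.card {v : V // v ≠ r} :=
    Nat.card_le_card_of_surjective _ hsurj
  have h2 : Nat.card {v : V // v ≠ r} + 1 = Nat.card V := by
    classical
    have := Fintype.ofFinite V
    rw [Nat.card_eq_fintype_card, Nat.card_eq_fintype_card, Fintype.card_subtype_compl,
      Fintype.card_subtype_eq]
    have : 0 < Fintype.card V := Fintype.card_pos_iff.mpr ⟨r⟩
    omega
  omega

theorem lipschitz_walk {G : SimpleGraph V} (f : V → ℕ) (hf : ∀ u v, G.Adj u v → f v ≤ f u + 1)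
    {u v : V} (w : G.Walk u v) : f v ≤ f u + w.length := by
  induction w with
  | nil => simp
  | cons h p ih =>
    have := hf _ _ h
    simp only [Walk.length_cons]
    omega

theorem lipschitz_edist {G : SimpleGraph V} (f : V → ℕ) (hf : ∀ u v, G.Adj u v → f v ≤ f u + 1)
    {u v : V} {d : ℕ} (h : G.edist u v ≤ d) : f v ≤ f u + d := by
  have hne : G.edist u v ≠ ⊤ := ne_top_of_le_ne_top (ENat.natCast_ne_top d) h
  obtain ⟨w, hw⟩ := exists_walk_of_edist_ne_top hne
  have h1 := lipschitz_walk f hf w
  rw [← hw] at h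
  have h2 : w.length ≤ d := by exact_mod_cast h
  omega

theorem lipschitz_par (par : V → V) (f : V → ℕ)
    (hf : ∀ v, f v ≤ f (par v) + 1 ∧ f (par v) ≤ f v + 1) :
    ∀ u v, (parGraph par).Adj u v → f v ≤ f u + 1 := by
  intro u v h
  rw [parGraph_adj] at h
  obtain ⟨-, h1 | h1⟩ := h
  · rw [← h1]; exact (hf u).2
  · rw [← h1]; exact (hf v).1

theorem edist_par_le (par : V → V) (v : V) : (parGraph par).edist v (par v) ≤ 1 := by
  rw [edist_le_one_iff_adj_or_eq, parGraph_adj]
  by_cases h : v = par v
  · exact Or.inr h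
  · exact Or.inl ⟨h, Or.inl rfl⟩

theorem edist_par2_le (par : V → V) (v : V) : (parGraph par).edist v (par (par v)) ≤ 2 := by
  refine (SimpleGraph.edist_triangle (v := par v)).trans ?_
  have h1 := edist_par_le par v
  have h2 := edist_par_le par (par v)
  calc _ ≤ (1 : ℕ∞) + 1 := add_le_add h1 h2
    _ = 2 := by norm_num

/-- A maximum `p`-packing is `p`-dominating. -/
theorem exists_dom_pack [Fintype V] (G : SimpleGraph V) (p : ℕ) :
    ∃ X : Finset V, (∀ u, u ∉ X → ∃ x ∈ X, G.edist u x ≤ p) ∧
      (∀ u ∈ X, ∀ v ∈ X, u ≠ v → (p : ℕ∞) + 1 ≤ G.edist u v) := by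
  classical
  obtain ⟨X, hX, hmax⟩ := Finset.exists_max_image
    (Finset.univ.filter fun X : Finset V => ∀ u ∈ X, ∀ v ∈ X, u ≠ v → (p : ℕ∞) + 1 ≤ G.edist u v)
    Finset.card ⟨∅, by simp⟩
  simp only [Finset.mem_filter, Finset.mem_univ, true_and] at hX hmax
  refine ⟨X, fun u hu => ?_, hX⟩
  by_contra hcon
  push Not at hcon
  have hfar : ∀ x ∈ X, (p : ℕ∞) + 1 ≤ G.edist u x := fun x hx =>
    Order.add_one_le_of_lt (hcon x hx)
  have := hmax (insert u X) (by
    intro a ha b hb hab
    rw [Finset.mem_insert] at ha hb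
    rcases ha with rfl | ha <;> rcases hb with rfl | hb
    · exact absurd rfl hab
    · exact hfar b hb
    · rw [edist_comm]; exact hfar a ha
    · exact hX a ha b hb hab)
  rw [Finset.card_insert_of_notMem hu] at this
  omega

end General

/-- Vertices of the spider. -/
abbrev SV (k s m : ℕ) : Type :=
  Unit ⊕ Fin k ⊕ (Fin k × Fin k) ⊕ (Fin k × Fin k × Fin s × Fin m)

variable {k s m : ℕ}

def root : SV k s m := Sum.inl ()
def mid (i : Fin k) : SV k s m := Sum.inr (Sum.inl i)
def hub (i j : Fin k) : SV k s m := Sum.inr (Sum.inr (Sum.inl (i, j)))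
def leg (i j : Fin k) (t : Fin s) (a : Fin m) : SV k s m :=
  Sum.inr (Sum.inr (Sum.inr (i, j, t, a)))

theorem card_SV : Fintype.card (SV k s m) = 1 + (k + (k * k + k * (k * (s * m)))) := by
  simp [SV]

def par : SV k s m → SV k s m
  | Sum.inl _ => root
  | Sum.inr (Sum.inl _) => root
  | Sum.inr (Sum.inr (Sum.inl (i, _))) => mid i
  | Sum.inr (Sum.inr (Sum.inr (i, j, t, a))) =>
      if a.val = 0 then hub i j else leg i j t ⟨a.val - 1, by omega⟩

def dep : SV k s m → ℕ
  | Sum.inl _ => 0
  | Sum.inr (Sum.inl _) => 1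
  | Sum.inr (Sum.inr (Sum.inl _)) => 2
  | Sum.inr (Sum.inr (Sum.inr (_, _, _, a))) => 3 + a.val

theorem spider_isTree : (parGraph (par : SV k s m → SV k s m)).IsTree := by
  refine parGraph_isTree par dep root rfl ?_
  rintro (_ | i | ⟨i, j⟩ | ⟨i, j, t, a⟩) hv
  · exact absurd rfl hv
  · simp [par, dep, root]
  · simp [par, dep, mid]
  · by_cases ha : a.val = 0
    · simp [par, dep, hub, ha]
    · simp only [par, ha, if_false, dep, leg]
      omega

/-- Lower bound for the distance from the end of the path `(i, j, t)`. -/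
def fl (i j : Fin k) (t : Fin s) : SV k s m → ℕ
  | Sum.inl _ => m + 2
  | Sum.inr (Sum.inl i') => if i' = i then m + 1 else m + 2
  | Sum.inr (Sum.inr (Sum.inl (i', j'))) => if i' = i ∧ j' = j then m else m + 2
  | Sum.inr (Sum.inr (Sum.inr (i', j', t', a))) =>
      if i' = i ∧ j' = j then
        (if t' = t then m - 1 - a.val else if a.val = 0 then m + 1 else m + 2)
      else m + 2

theorem fl_lip (i j : Fin k) (t : Fin s) (v : SV k s m) :
    fl i j t v ≤ fl i j t (par v) + 1 ∧ fl i j t (par v) ≤ fl i j t v + 1 := by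
  rcases v with _ | i' | ⟨i', j'⟩ | ⟨i', j', t', a⟩
  · simp [par, fl, root]
  · simp only [par, fl, root]
    split_ifs <;> omega
  · simp only [par, fl, mid]
    split_ifs <;> omega
  · have ha2 := a.2
    by_cases ha : a.val = 0
    · simp only [par, ha, if_true, fl, hub]
      split_ifs <;> omega
    · simp only [par, ha, if_false, fl, leg]
      split_ifs <;> omega

/-- The closed neighbourhood of a hub. -/
def NearHub (i j : Fin k) (x : SV k s m) : Prop :=
  x = mid i ∨ x = hub i j ∨ ∃ t a, a.val = 0 ∧ x = leg i j t a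

theorem nearHub_edist {i j : Fin k} {x : SV k s m} (h : NearHub i j x) :
    (parGraph (par : SV k s m → SV k s m)).edist x (mid i) ≤ 2 := by
  rcases h with rfl | rfl | ⟨t, a, ha, rfl⟩
  · simp
  · exact (edist_par_le par (hub i j)).trans (by norm_num)
  · have := edist_par2_le par (leg i j t a : SV k s m)
    simpa [leg, par, ha, hub] using this

theorem mid_edist (i i' : Fin k) :
    (parGraph (par : SV k s m → SV k s m)).edist (mid i) (mid i') ≤ 2 := by
  refine (SimpleGraph.edist_triangle (v := root)).trans ?_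
  have h1 := edist_par_le par (mid i : SV k s m)
  have h2 := edist_par_le par (mid i' : SV k s m)
  rw [edist_comm] at h2
  calc _ ≤ (1 : ℕ∞) + 1 := add_le_add h1 h2
    _ = 2 := by norm_num

theorem ball_end (hm : 0 < m) (i j : Fin k) (t : Fin s) (x : SV k s m)
    (h : (parGraph (par : SV k s m → SV k s m)).edist (leg i j t ⟨m - 1, by omega⟩) x
      ≤ ((m + 1 : ℕ) : ℕ∞)) :
    NearHub i j x ∨ ∃ a, x = leg i j t a := by
  have h1 := lipschitz_edist (fl i j t) (lipschitz_par par _ (fl_lip i j t)) h
  have h0 : fl i j t (leg i j t ⟨m - 1, by omega⟩ : SV k s m) = 0 := by simp [fl, leg]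
  rw [h0] at h1
  rcases x with _ | i' | ⟨i', j'⟩ | ⟨i', j', t', a⟩
  · simp only [fl] at h1
    omega
  · simp only [fl] at h1
    split_ifs at h1 with h2
    · subst h2
      exact Or.inl (Or.inl rfl)
    · omega
  · simp only [fl] at h1
    split_ifs at h1 with h2
    · obtain ⟨rfl, rfl⟩ := h2
      exact Or.inl (Or.inr (Or.inl rfl))
    · omega
  · simp only [fl] at h1
    split_ifs at h1 with h2 h3 h4
    · obtain ⟨rfl, rfl⟩ := h2
      subst h3
      exact Or.inr ⟨a, rfl⟩
    · obtain ⟨rfl, rfl⟩ := h2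
      exact Or.inl (Or.inr (Or.inr ⟨t', a, h4, rfl⟩))
    · omega
    · omega

/-- Every set that is `(m+1)`-dominating and a `4`-packing has at least `(k² - k) s` elements. -/
theorem spider_lower (hm : 0 < m) (X : Finset (SV k s m))
    (hdom : ∀ u, u ∉ X → ∃ x ∈ X,
      (parGraph (par : SV k s m → SV k s m)).edist u x ≤ ((m + 1 : ℕ) : ℕ∞))
    (hpack : ∀ u ∈ X, ∀ v ∈ X, u ≠ v →
      (4 : ℕ∞) + 1 ≤ (parGraph (par : SV k s m → SV k s m)).edist u v) :
    (k * k - k) * s ≤ X.card := by
  classical
  set G := parGraph (par : SV k s m → SV k s m) with hG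
  have hfour : ∀ u ∈ X, ∀ v ∈ X, G.edist u v ≤ 4 → u = v := by
    intro u hu v hv h
    by_contra hne
    have := (hpack u hu v hv hne).trans h
    norm_num at this
  have htri : ∀ u w v : SV k s m, G.edist u w ≤ 2 → G.edist w v ≤ 2 → G.edist u v ≤ 4 := by
    intro u w v h1 h2
    refine (SimpleGraph.edist_triangle (v := w)).trans ?_
    calc _ ≤ (2 : ℕ∞) + 2 := add_le_add h1 h2
      _ = 4 := by norm_num
  set H : Finset (Fin k × Fin k) :=
    Finset.univ.filter fun q => ∃ x ∈ X, NearHub q.1 q.2 x with hH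
  have hHcard : H.card ≤ k := by
    by_cases hA : ∃ i₀, mid i₀ ∈ X
    · obtain ⟨i₀, hi₀⟩ := hA
      have hall : ∀ q ∈ H, q.1 = i₀ := by
        intro q hq
        obtain ⟨x, hx, hn⟩ := (Finset.mem_filter.mp hq).2
        have h1 : x = mid i₀ := hfour x hx _ hi₀ (htri _ _ _ (nearHub_edist hn) (mid_edist _ _))
        rcases hn with h2 | h2 | ⟨t, a, -, h2⟩ <;> rw [h1] at h2
        · simpa [mid] using h2.symm
        · simp [mid, hub] at h2
        · simp [mid, leg] at h2
      have := Finset.card_le_card_of_injOn (s := H) (t := Finset.univ) Prod.snd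
        (fun _ _ => Finset.mem_coe.mpr (Finset.mem_univ _)) (by
          intro q hq q' hq' h
          exact Prod.ext ((hall q hq).trans (hall q' hq').symm) h)
      simpa using this
    · push Not at hA
      have := Finset.card_le_card_of_injOn (s := H) (t := Finset.univ) Prod.fst
        (fun _ _ => Finset.mem_coe.mpr (Finset.mem_univ _)) (by
          intro q hq q' hq' h
          obtain ⟨x, hx, hn⟩ := (Finset.mem_filter.mp hq).2
          obtain ⟨x', hx', hn'⟩ := (Finset.mem_filter.mp hq').2
          have e1 := nearHub_edist hn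
          have e2 := nearHub_edist hn'
          rw [← h, edist_comm] at e2
          have h1 : x = x' := hfour x hx x' hx' (htri _ _ _ e1 e2)
          subst h1
          refine Prod.ext h ?_
          rcases hn with h2 | h2 | ⟨t, a, -, h2⟩
          · exact absurd (h2 ▸ hx) (hA _)
          · rcases hn' with h3 | h3 | ⟨t', a', -, h3⟩ <;> rw [h2] at h3
            · simp [mid, hub] at h3
            · simp only [hub, Sum.inr.injEq, Sum.inl.injEq, Prod.mk.injEq] at h3
              exact h3.2
            · simp [hub, leg] at h3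
          · rcases hn' with h3 | h3 | ⟨t', a', -, h3⟩ <;> rw [h2] at h3
            · simp [mid, leg] at h3
            · simp [hub, leg] at h3
            · simp only [leg, Sum.inr.injEq, Prod.mk.injEq] at h3
              exact h3.2.1)
      simpa using this
  have hex : ∀ z ∈ Hᶜ ×ˢ (Finset.univ : Finset (Fin s)),
      ∃ a : Fin m, (leg z.1.1 z.1.2 z.2 a : SV k s m) ∈ X := by
    rintro ⟨⟨i, j⟩, t⟩ hz
    have hq : (i, j) ∉ H := by simpa using hz
    by_cases he : (leg i j t ⟨m - 1, by omega⟩ : SV k s m) ∈ X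
    · exact ⟨_, he⟩
    · obtain ⟨x, hx, hd⟩ := hdom _ he
      rcases ball_end hm i j t x hd with h1 | ⟨a, h1⟩
      · exact absurd (Finset.mem_filter.mpr ⟨Finset.mem_univ _, x, hx, h1⟩) hq
      · exact ⟨a, h1 ▸ hx⟩
  have : Nonempty (Fin m) := ⟨⟨0, hm⟩⟩
  choose! g hg using hex
  have h1 := Finset.card_le_card_of_injOn (s := Hᶜ ×ˢ (Finset.univ : Finset (Fin s))) (t := X)
    (fun z => (leg z.1.1 z.1.2 z.2 (g z) : SV k s m))
    (fun z hz => Finset.mem_coe.mpr (hg z hz)) (by
      rintro ⟨⟨i, j⟩, t⟩ - ⟨⟨i', j'⟩, t'⟩ - h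
      simp only [leg, Sum.inr.injEq, Prod.mk.injEq] at h
      obtain ⟨rfl, rfl, rfl, -⟩ := h
      rfl)
  rw [Finset.card_product, Finset.card_compl] at h1
  simp only [Fintype.card_prod, Fintype.card_fin, Finset.card_univ] at h1
  refine le_trans (Nat.mul_le_mul_right _ ?_) h1
  omega

end Pool.Agent.P.MP_bde484_co
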