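import Pool.Agent.P.MP_bde484_co.Spider

/-!
A star with `k + 1` leaves (hubs): `k` of them carry two pendant paths with `m + 1` vertices,
the last one carries two pendant paths with `m` vertices.
-/

namespace Pool.Agent.P.MP_bde484_co

open SimpleGraph

/-- Vertices: the centre, the hubs, the long paths, the short paths. -/
abbrev TV (k m : ℕ) : Type :=
  Unit ⊕ Option (Fin k) ⊕ (Fin k × Fin 2 × Fin (m + 1)) ⊕ (Fin 2 × Fin m)

variable {k m : ℕ}

def tc : TV k m := Sum.inl ()
def th (j : Option (Fin k)) : TV k m := Sum.inr (Sum.inl j)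
def tl (i : Fin k) (t : Fin 2) (a : Fin (m + 1)) : TV k m := Sum.inr (Sum.inr (Sum.inl (i, t, a)))
def ts (t : Fin 2) (a : Fin m) : TV k m := Sum.inr (Sum.inr (Sum.inr (t, a)))

theorem card_TV : Fintype.card (TV k m) = 1 + (k + 1 + (k * (2 * (m + 1)) + 2 * m)) := by
  simp [TV]

def tpar : TV k m → TV k m
  | Sum.inl _ => tc
  | Sum.inr (Sum.inl _) => tc
  | Sum.inr (Sum.inr (Sum.inl (i, t, a))) =>
      if a.val = 0 then th (some i) else tl i t ⟨a.val - 1, by omega⟩
  | Sum.inr (Sum.inr (Sum.inr (t, a))) =>
      if a.val = 0 then th none else ts t ⟨a.val - 1, by omega⟩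

def tdep : TV k m → ℕ
  | Sum.inl _ => 0
  | Sum.inr (Sum.inl _) => 1
  | Sum.inr (Sum.inr (Sum.inl (_, _, a))) => 2 + a.val
  | Sum.inr (Sum.inr (Sum.inr (_, a))) => 2 + a.val

theorem star_isTree : (parGraph (tpar : TV k m → TV k m)).IsTree := by
  refine parGraph_isTree tpar tdep tc rfl ?_
  rintro (_ | j | ⟨i, t, a⟩ | ⟨t, a⟩) hv
  · exact absurd rfl hv
  · simp [tpar, tdep, tc]
  · by_cases ha : a.val = 0
    · simp only [tpar, ha, if_true, tdep, th]
      omega
    · simp only [tpar, ha, if_false, tdep, tl]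
      omega
  · by_cases ha : a.val = 0
    · simp only [tpar, ha, if_true, tdep, th]
      omega
    · simp only [tpar, ha, if_false, tdep, ts]
      omega

/-- The private zone of a vertex; `none` for the vertices of the core. -/
def zone : TV k m → Option (Option (Fin k) × Fin 2)
  | Sum.inl _ => none
  | Sum.inr (Sum.inl _) => none
  | Sum.inr (Sum.inr (Sum.inl (i, t, _))) => some (some i, t)
  | Sum.inr (Sum.inr (Sum.inr (t, a))) => if a.val = 0 then none else some (none, t)

/-- The hub whose paths a core vertex can serve. -/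
def serve : TV k m → Option (Fin k)
  | Sum.inr (Sum.inl j) => j
  | _ => none

/-- Lower bound for the distance from the end of the long path `(i, t)`. -/
def fL (i : Fin k) (t : Fin 2) : TV k m → ℕ
  | Sum.inl _ => m + 2
  | Sum.inr (Sum.inl j) => if j = some i then m + 1 else m + 2
  | Sum.inr (Sum.inr (Sum.inl (i', t', a))) => if i' = i ∧ t' = t then m - a.val else m + 2
  | Sum.inr (Sum.inr (Sum.inr _)) => m + 2

/-- Lower bound for the distance from the end of the short path `t`. -/
def fS (t : Fin 2) : TV k m → ℕ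
  | Sum.inl _ => m + 1
  | Sum.inr (Sum.inl j) => if j = none then m else m + 2
  | Sum.inr (Sum.inr (Sum.inl _)) => m + 2
  | Sum.inr (Sum.inr (Sum.inr (t', a))) =>
      if t' = t then m - 1 - a.val else if a.val = 0 then m + 1 else m + 2

theorem fL_lip (i : Fin k) (t : Fin 2) (v : TV k m) :
    fL i t v ≤ fL i t (tpar v) + 1 ∧ fL i t (tpar v) ≤ fL i t v + 1 := by
  rcases v with _ | j | ⟨i', t', a⟩ | ⟨t', a⟩
  · simp [tpar, fL, tc]
  · simp only [tpar, fL, tc]
    split_ifs <;> omega
  · have ha2 := a.2
    by_cases ha : a.val = 0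
    · simp only [tpar, ha, if_true, fL, th, Option.some.injEq]
      by_cases h1 : i' = i <;> by_cases h2 : t' = t <;> simp [h1, h2]
      omega
    · simp only [tpar, ha, if_false, fL, tl]
      split_ifs <;> omega
  · by_cases ha : a.val = 0
    · simp [tpar, ha, fL, th]
    · simp [tpar, ha, fL, ts]

theorem fS_lip (t : Fin 2) (v : TV k m) :
    fS t v ≤ fS t (tpar v) + 1 ∧ fS t (tpar v) ≤ fS t v + 1 := by
  rcases v with _ | j | ⟨i', t', a⟩ | ⟨t', a⟩
  · simp [tpar, fS, tc]
  · simp only [tpar, fS, tc]
    split_ifs <;> omega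
  · by_cases ha : a.val = 0
    · simp [tpar, ha, fS, th]
    · simp [tpar, ha, fS, tl]
  · have ha2 := a.2
    by_cases ha : a.val = 0
    · simp only [tpar, ha, if_true, fS, th]
      split_ifs <;> omega
    · simp only [tpar, ha, if_false, fS, ts]
      split_ifs <;> omega

/-- The end of a path. -/
def tend (hm : 0 < m) : Option (Fin k) × Fin 2 → TV k m
  | (some i, t) => tl i t (Fin.last m)
  | (none, t) => ts t ⟨m - 1, by omega⟩

theorem tend_ball (hm : 0 < m) (z : Option (Fin k) × Fin 2) (x : TV k m)
    (h : (parGraph (tpar : TV k m → TV k m)).edist (tend hm z) x ≤ ((m + 1 : ℕ) : ℕ∞)) :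
    zone x = some z ∨ (zone x = none ∧ serve x = z.1) := by
  rcases z with ⟨_ | i, t⟩
  · have h1 := lipschitz_edist (fS t) (lipschitz_par tpar _ (fS_lip t)) h
    have h0 : fS t (tend hm (none, t) : TV k m) = 0 := by simp [fS, tend, ts]
    rw [h0] at h1
    rcases x with _ | j | ⟨i', t', a⟩ | ⟨t', a⟩
    · exact Or.inr ⟨rfl, rfl⟩
    · simp only [fS] at h1
      split_ifs at h1 with h2
      · exact Or.inr ⟨rfl, h2⟩
      · omega
    · simp only [fS] at h1
      omega
    · by_cases ha : a.val = 0
      · exact Or.inr ⟨by simp [zone, ha], rfl⟩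
      · simp only [fS, ha, if_false] at h1
        split_ifs at h1 with h2
        · exact Or.inl (by simp [zone, ha, h2])
        · omega
  · have h1 := lipschitz_edist (fL i t) (lipschitz_par tpar _ (fL_lip i t)) h
    have h0 : fL i t (tend hm (some i, t) : TV k m) = 0 := by simp [fL, tend, tl]
    rw [h0] at h1
    rcases x with _ | j | ⟨i', t', a⟩ | ⟨t', a⟩
    · simp only [fL] at h1
      omega
    · simp only [fL] at h1
      split_ifs at h1 with h2
      · exact Or.inr ⟨rfl, h2⟩
      · omega
    · simp only [fL] at h1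
      split_ifs at h1 with h2
      · exact Or.inl (by simp [zone, h2.1, h2.2])
      · omega
    · simp only [fL] at h1
      omega

/-- A core vertex is within distance one of the centre or of the short hub. -/
theorem core_near {x : TV k m} (h : zone x = none) : ∃ y, (y = tc ∨ y = th none) ∧
    (parGraph (tpar : TV k m → TV k m)).edist x y ≤ 1 := by
  refine ⟨tpar x, ?_, edist_par_le tpar x⟩
  rcases x with _ | j | ⟨i', t', a⟩ | ⟨t', a⟩
  · exact Or.inl rfl
  · exact Or.inl rfl
  · simp [zone] at h
  · by_cases ha : a.val = 0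
    · exact Or.inr (by simp [tpar, ha])
    · simp [zone, ha] at h

theorem core_diam {x x' : TV k m} (h : zone x = none) (h' : zone x' = none) :
    (parGraph (tpar : TV k m → TV k m)).edist x x' ≤ 3 := by
  obtain ⟨y, hy, e⟩ := core_near h
  obtain ⟨y', hy', e'⟩ := core_near h'
  have e0 : (parGraph (tpar : TV k m → TV k m)).edist (th none) tc ≤ 1 :=
    edist_par_le tpar (th none : TV k m)
  have e1 : (parGraph (tpar : TV k m → TV k m)).edist y y' ≤ 1 := by
    rcases hy with rfl | rfl <;> rcases hy' with rfl | rfl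
    · simp
    · rwa [edist_comm]
    · exact e0
    · simp
  rw [edist_comm] at e'
  refine (SimpleGraph.edist_triangle (v := y)).trans ?_
  refine (add_le_add e ((SimpleGraph.edist_triangle (v := y')).trans (add_le_add e1 e'))).trans ?_
  norm_num

/-- Every set that is `(m+1)`-dominating and a `3`-packing has at least `2 k + 1` elements. -/
theorem star_lower (hm : 0 < m) (X : Finset (TV k m))
    (hdom : ∀ u, u ∉ X → ∃ x ∈ X,
      (parGraph (tpar : TV k m → TV k m)).edist u x ≤ ((m + 1 : ℕ) : ℕ∞))
    (hpack : ∀ u ∈ X, ∀ v ∈ X, u ≠ v →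
      (3 : ℕ∞) + 1 ≤ (parGraph (tpar : TV k m → TV k m)).edist u v) :
    2 * k + 1 ≤ X.card := by
  classical
  have hex : ∀ z : Option (Fin k) × Fin 2,
      ∃ x ∈ X, zone x = some z ∨ (zone x = none ∧ serve x = z.1) := fun z => by
    by_cases he : tend hm z ∈ X
    · exact ⟨_, he, tend_ball hm z _ (by simp)⟩
    · obtain ⟨x, hx, hd⟩ := hdom _ he
      exact ⟨x, hx, tend_ball hm z x hd⟩
  refine le_trans ?_ (Finset.card_image_le (f := zone))
  by_cases hA : ∃ x0 ∈ X, zone x0 = none
  · obtain ⟨x0, hx0, h0⟩ := hA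
    have h1 : insert none (((Finset.univ.erase (serve x0)) ×ˢ (Finset.univ : Finset (Fin 2))).image
        some) ⊆ X.image zone := by
      intro o ho
      rcases Finset.mem_insert.1 ho with rfl | ho
      · exact Finset.mem_image.2 ⟨x0, hx0, h0⟩
      · obtain ⟨z, hz, rfl⟩ := Finset.mem_image.1 ho
        obtain ⟨x, hx, h2 | ⟨h2, h3⟩⟩ := hex z
        · exact Finset.mem_image.2 ⟨x, hx, h2⟩
        · have h4 : x = x0 := by
            by_contra hne
            have := (hpack x hx x0 hx0 hne).trans (core_diam h2 h0)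
            norm_num at this
          subst h4
          simp [h3] at hz
    have h2 := Finset.card_le_card h1
    rw [Finset.card_insert_of_notMem (by simp),
      Finset.card_image_of_injective _ (Option.some_injective _), Finset.card_product,
      Finset.card_erase_of_mem (Finset.mem_univ _)] at h2
    simp only [Finset.card_univ, Fintype.card_option, Fintype.card_fin] at h2
    omega
  · have h1 : (Finset.univ : Finset (Option (Fin k) × Fin 2)).image some ⊆ X.image zone := by
      intro o ho
      obtain ⟨z, -, rfl⟩ := Finset.mem_image.1 ho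
      obtain ⟨x, hx, h2 | ⟨h2, -⟩⟩ := hex z
      · exact Finset.mem_image.2 ⟨x, hx, h2⟩
      · exact absurd ⟨x, hx, h2⟩ hA
    have h2 := Finset.card_le_card h1
    rw [Finset.card_image_of_injective _ (Option.some_injective _)] at h2
    simp only [Finset.card_univ, Fintype.card_prod, Fintype.card_option, Fintype.card_fin] at h2
    omega

end Pool.Agent.P.MP_bde484_co
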